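import Pool.Agent.H4.FV.OddT

/-!
# Project FV/ODD, task ODD-TRI (helper234): the vertices of the standard algebra
-/

set_option autoImplicit false
set_option linter.all false

namespace Pool.Agent.H234.FV

open Pool.Agent.H4.FV.Odd

section

variable {p : ℕ} [Fact p.Prime] {Γ : ℕ → ℕ → Prop}

theorem ind3 (hct : T_ct p Γ) (x y z : SA p Γ) : IndA p ![x, y, z] ↔
    ∀ a b c : ZMod p, a • x.1 + b • y.1 + c • z.1 = 0 → a = 0 ∧ b = 0 ∧ c = 0 := by
  constructor
  · intro h a b c h0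
    by_contra hn
    have hex : ∃ i, (![a, b, c] : Fin 3 → ZMod p) i ≠ 0 := by
      by_contra hn2
      push Not at hn2
      exact hn ⟨hn2 0, hn2 1, hn2 2⟩
    apply h ![a, b, c] hex
    rw [hct]
    have e : lcA p ![x, y, z] ![a, b, c] = a • x + b • y + c • z := by
      unfold lcA
      rw [Fin.sum_univ_three]
      rfl
    rw [e]
    exact h0
  · intro h c hc hcc
    rw [hct] at hcc
    have e : lcA p ![x, y, z] c = c 0 • x + c 1 • y + c 2 • z := by
      unfold lcA
      rw [Fin.sum_univ_three]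
      rfl
    rw [e] at hcc
    obtain ⟨g0, g1, g2⟩ := h (c 0) (c 1) (c 2) hcc
    obtain ⟨i, hi⟩ := hc
    apply hi
    fin_cases i
    · exact g0
    · exact g1
    · exact g2

theorem ind2 (hct : T_ct p Γ) (x y : SA p Γ)
    (h : ∀ a b : ZMod p, a • x.1 + b • y.1 = 0 → a = 0 ∧ b = 0) : IndA p ![x, y] := by
  intro c hc hcc
  rw [hct] at hcc
  have e : lcA p ![x, y] c = c 0 • x + c 1 • y := by
    unfold lcA
    rw [Fin.sum_univ_two]
    rfl
  rw [e] at hcc
  obtain ⟨g0, g1⟩ := h (c 0) (c 1) hcc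
  obtain ⟨i, hi⟩ := hc
  apply hi
  fin_cases i
  · exact g0
  · exact g1

/-- the easy direction: `x` at the vertex `v`, `y` at its block -/
theorem mul_zero_of_supp (x y : SA p Γ) (v : ℕ) (hx : ∀ b, b ≠ Sum.inl (v, 0) → x.1 b = 0)
    (hy : ∀ b, (∀ i, b ≠ Sum.inl (v, i)) → y.1 b = 0) : x * y = 0 := by
  refine Prod.ext rfl ?_
  rw [mul_snd, Submodule.mkQ_apply]
  refine (Submodule.Quotient.mk_eq_zero _).2 ?_
  rw [mem_Kr]
  have hxr : ∀ q : {q : ℕ × ℕ // Eo Γ q.1 q.2} × Fin 2, x.1 (Sum.inr q) = 0 := fun q =>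
    hx _ (by intro h; cases h)
  have hyr : ∀ q : {q : ℕ × ℕ // Eo Γ q.1 q.2} × Fin 2, y.1 (Sum.inr q) = 0 := fun q =>
    hy _ (by intro i h; cases h)
  have hxi : ∀ (w : ℕ) (i : Fin 3), i ≠ 0 → x.1 (Sum.inl (w, i)) = 0 := fun w i hi =>
    hx _ (by
      intro h
      have h2 := Sum.inl.inj h
      exact hi (congrArg Prod.snd h2))
  have hxw : ∀ w : ℕ, w ≠ v → x.1 (Sum.inl (w, 0)) = 0 := fun w hw =>
    hx _ (by
      intro h
      have h2 := Sum.inl.inj h
      exact hw (congrArg Prod.fst h2))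
  have hyw : ∀ (w : ℕ) (i : Fin 3), w ≠ v → y.1 (Sum.inl (w, i)) = 0 := fun w i hw =>
    hy _ (by
      intro j h
      have h2 := Sum.inl.inj h
      exact hw (congrArg Prod.fst h2))
  have key : ∀ (u w : ℕ) (i : Fin 3), u ≠ w → x.1 (Sum.inl (u, 0)) * y.1 (Sum.inl (w, i)) = 0 := by
    intro u w i huw
    by_cases h : u = v
    · rw [hyw w i (fun h2 => huw (h.trans h2.symm)), mul_zero]
    · rw [hxw u h, zero_mul]
  refine ⟨fun u w h1 h2 => ?_, fun q => ?_, fun u w i h1 h2 => ?_, fun u w i j h1 h2 => ?_,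
    fun u q => ?_, fun q q' h => ?_⟩
  · show tn x.1 y.1 (_, _) - tn x.1 y.1 (_, _) = 0
    rw [tn_apply, tn_apply]
    by_cases h : u = w
    · rw [h]
      ring
    · rw [key u w 0 h, key w u 0 (Ne.symm h), sub_zero]
  · show tn x.1 y.1 (_, _) - tn x.1 y.1 (_, _) = tn x.1 y.1 (_, _) - tn x.1 y.1 (_, _)
    rw [tn_apply, tn_apply, tn_apply, tn_apply, hxr, hxr, key _ _ 0 (ne_of_lt q.2.1),
      key _ _ 0 (ne_of_gt q.2.1)]
    ring
  · show tn x.1 y.1 (_, _) - tn x.1 y.1 (_, _) = 0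
    rw [tn_apply, tn_apply, key u w i h2, hxi w i h1]
    ring
  · show tn x.1 y.1 (_, _) - tn x.1 y.1 (_, _) = 0
    rw [tn_apply, tn_apply, hxi u i h1, hxi w j h2]
    ring
  · show tn x.1 y.1 (_, _) - tn x.1 y.1 (_, _) = 0
    rw [tn_apply, tn_apply, hxr, hyr]
    ring
  · show tn x.1 y.1 (_, _) - tn x.1 y.1 (_, _) = 0
    rw [tn_apply, tn_apply, hxr, hxr]
    ring

theorem prop2 {a b u w : ZMod p} (h : ¬ (a = 0 ∧ b = 0)) (he : a * w = b * u) :
    ∃ l : ZMod p, u = l * a ∧ w = l * b := by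
  by_cases ha : a = 0
  · have hb : b ≠ 0 := fun hb => h ⟨ha, hb⟩
    refine ⟨w / b, ?_, ?_⟩
    · rw [ha, mul_zero]
      rw [ha, zero_mul] at he
      rcases mul_eq_zero.1 he.symm with h1 | h1
      · exact absurd h1 hb
      · exact h1
    · rw [div_mul_cancel₀ _ hb]
  · refine ⟨u / a, ?_, ?_⟩
    · rw [div_mul_cancel₀ _ ha]
    · rw [div_mul_eq_mul_div, eq_div_iff ha]
      linear_combination he

end

theorem tri : S_tri := by
  intro p _ hp2 Γ hct hco x y z
  constructor
  · rintro ⟨hxy, hxz, hind⟩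
    refine ⟨hind, ?_⟩
    have H := (ind3 hct x y z).1 hind
    have i1 : IndA p ![x, y] := ind2 hct x y fun a b hab => by
      have h := H a b 0 (by rw [zero_smul, add_zero]; exact hab)
      exact ⟨h.1, h.2.1⟩
    have i2 : IndA p ![x, z] := ind2 hct x z fun a b hab => by
      have h := H a 0 b (by rw [zero_smul, add_zero]; exact hab)
      exact ⟨h.1, h.2.2⟩
    obtain ⟨v, hv, hv2⟩ := hco x y hxy i1
    obtain ⟨w, hw, hw2⟩ := hco x z hxz i2
    have hvw : v = w := by
      by_contra hne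
      have hx0 : x.1 = 0 := by
        refine Finsupp.ext fun b => ?_
        by_cases hb : ∀ i, b ≠ Sum.inl (v, i)
        · exact (hv b hb).1
        · push Not at hb
          obtain ⟨i, hi⟩ := hb
          refine (hw b ?_).1
          intro j hj
          rw [hi] at hj
          have h2 := Sum.inl.inj hj
          exact hne (congrArg Prod.fst h2)
      have h := H 1 0 0 (by rw [hx0]; simp)
      exact one_ne_zero h.1
    subst hvw
    by_cases hx : x.1 (Sum.inl (v, 1)) = 0 ∧ x.1 (Sum.inl (v, 2)) = 0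
    · refine ⟨v, fun b hb => ?_, fun b hb => ⟨(hv b hb).2, (hw b hb).2⟩⟩
      by_cases hb2 : ∀ i, b ≠ Sum.inl (v, i)
      · exact (hv b hb2).1
      · push Not at hb2
        obtain ⟨i, hi⟩ := hb2
        rw [hi]
        rw [hi] at hb
        fin_cases i
        · exact absurd rfl hb
        · exact hx.1
        · exact hx.2
    · exfalso
      obtain ⟨l, hl1, hl2⟩ := prop2 hx hv2
      obtain ⟨m, hm1, hm2⟩ := prop2 hx hw2
      obtain ⟨α, hα⟩ : ∃ α, α = y.1 (Sum.inl (v, 0)) - l * x.1 (Sum.inl (v, 0)) := ⟨_, rfl⟩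
      obtain ⟨β, hβ⟩ : ∃ β, β = z.1 (Sum.inl (v, 0)) - m * x.1 (Sum.inl (v, 0)) := ⟨_, rfl⟩
      have blk : ∀ a b c : ZMod p,
          (∀ i : Fin 3, a * x.1 (Sum.inl (v, i)) + b * y.1 (Sum.inl (v, i)) +
            c * z.1 (Sum.inl (v, i)) = 0) → a • x.1 + b • y.1 + c • z.1 = 0 := by
        intro a b c h
        refine Finsupp.ext fun d => ?_
        show a * x.1 d + b * y.1 d + c * z.1 d = 0
        by_cases hb : ∀ i, d ≠ Sum.inl (v, i)
        · rw [(hv d hb).1, (hv d hb).2, (hw d hb).2]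
          ring
        · push Not at hb
          obtain ⟨i, hi⟩ := hb
          rw [hi]
          exact h i
      by_cases hα0 : α = 0
      · have h := H (-l) 1 0 (blk _ _ _ fun i => by
          fin_cases i
          · show -l * x.1 (Sum.inl (v, 0)) + 1 * y.1 (Sum.inl (v, 0)) + 0 * z.1 (Sum.inl (v, 0)) = 0
            linear_combination hα0 - hα
          · show -l * x.1 (Sum.inl (v, 1)) + 1 * y.1 (Sum.inl (v, 1)) + 0 * z.1 (Sum.inl (v, 1)) = 0
            linear_combination hl1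
          · show -l * x.1 (Sum.inl (v, 2)) + 1 * y.1 (Sum.inl (v, 2)) + 0 * z.1 (Sum.inl (v, 2)) = 0
            linear_combination hl2)
        exact one_ne_zero h.2.1
      · have h := H (-(β * l - α * m)) β (-α) (blk _ _ _ fun i => by
          fin_cases i
          · show -(β * l - α * m) * x.1 (Sum.inl (v, 0)) + β * y.1 (Sum.inl (v, 0)) +
              -α * z.1 (Sum.inl (v, 0)) = 0
            linear_combination (-β) * hα + α * hβ
          · show -(β * l - α * m) * x.1 (Sum.inl (v, 1)) + β * y.1 (Sum.inl (v, 1)) +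
              -α * z.1 (Sum.inl (v, 1)) = 0
            linear_combination β * hl1 - α * hm1
          · show -(β * l - α * m) * x.1 (Sum.inl (v, 2)) + β * y.1 (Sum.inl (v, 2)) +
              -α * z.1 (Sum.inl (v, 2)) = 0
            linear_combination β * hl2 - α * hm2)
        exact hα0 (neg_eq_zero.1 h.2.2)
  · rintro ⟨hind, v, hx, hyz⟩
    exact ⟨mul_zero_of_supp x y v hx fun b hb => (hyz b hb).1,
      mul_zero_of_supp x z v hx fun b hb => (hyz b hb).2, hind⟩

end Pool.Agent.H234.FV
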